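import Pool.Agent.Y454.EW.Main

set_option autoImplicit false

namespace Pool.Agent.Y454.EW.Even

/-- EV6 -/
theorem t : Pool.Agent.Y577.EV.S_even := even_case

end Pool.Agent.Y454.EW.Even
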