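import Mathlib

set_option autoImplicit false

/-!
Colourings of graphs on `ZMod n`, `n` odd, that miss one difference: at most `2 n / 3` colours.
-/

namespace Pool.Agent.Y454.EW

open Finset

/-- involutions that move every point by `0`, `d` or `-d` -/
def IsI {n : ℕ} (d : ZMod n) (s : ZMod n → ZMod n) : Prop :=
  ∀ i, s (s i) = i ∧ (s i = i ∨ s i = i + d ∨ s i = i - d)

open Classical in
/-- the set of the fixed points -/
noncomputable def FX {n : ℕ} [NeZero n] (s : ZMod n → ZMod n) : Finset (ZMod n) :=
  univ.filter (fun i => s i = i)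

theorem exists_min {n : ℕ} [NeZero n] (d : ZMod n) :
    ∃ s, IsI d s ∧ ∀ s', IsI d s' → (FX s).card ≤ (FX s').card := by
  classical
  have h := Set.exists_min_image (s := {s : ZMod n → ZMod n | IsI d s})
    (fun s => (FX s).card) (Set.toFinite _) ⟨id, fun i => ⟨rfl, Or.inl rfl⟩⟩
  obtain ⟨s, hs, h1⟩ := h
  exact ⟨s, hs, h1⟩

theorem swap_ne {n : ℕ} [NeZero n] {d : ZMod n} (hd : d ≠ 0) {s : ZMod n → ZMod n}
    (hs : IsI d s) (hm : ∀ s', IsI d s' → (FX s).card ≤ (FX s').card) (u : ZMod n)
    (hu : s u = u) : s (u + d) ≠ u + d := by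
  classical
  intro hv
  have hne : u + d ≠ u := by simpa using hd
  let s' : ZMod n → ZMod n := fun i => if i = u then u + d else if i = u + d then u else s i
  have e1 : s' u = u + d := by simp [s']
  have e2 : s' (u + d) = u := by simp [s', hd]
  have e3 : ∀ i, i ≠ u → i ≠ u + d → s' i = s i := by
    intro i h1 h2
    simp [s', h1, h2]
  have hs' : IsI d s' := by
    intro i
    by_cases h1 : i = u
    · subst h1
      rw [e1, e2]
      exact ⟨rfl, Or.inr (Or.inl rfl)⟩
    · by_cases h2 : i = u + d
      · subst h2
        rw [e2, e1]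
        refine ⟨rfl, Or.inr (Or.inr (by ring))⟩
      · have h3 : s i ≠ u := by
          intro h
          apply h1
          rw [← (hs i).1, h, hu]
        have h4 : s i ≠ u + d := by
          intro h
          apply h2
          rw [← (hs i).1, h, hv]
        rw [e3 i h1 h2, e3 _ h3 h4]
        exact hs i
  have hlt : (FX s').card < (FX s).card := by
    apply card_lt_card
    refine ⟨?_, ?_⟩
    · intro i hi
      have hi' : s' i = i := by simpa [FX] using hi
      by_cases h1 : i = u
      · subst h1
        rw [e1] at hi'
        exact absurd hi' hne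
      · by_cases h2 : i = u + d
        · subst h2
          rw [e2] at hi'
          exact absurd hi'.symm hne
        · rw [e3 i h1 h2] at hi'
          simpa [FX] using hi'
    · intro h
      have h1 : u ∈ FX s' := h (by simpa [FX] using hu)
      have h2 : s' u = u := by simpa [FX] using h1
      rw [e1] at h2
      exact hne h2
  exact absurd (hm s' hs') (not_le.2 hlt)

theorem three_fix {n : ℕ} [NeZero n] {d : ZMod n} (hd : d ≠ 0) {s : ZMod n → ZMod n}
    (hs : IsI d s) (hm : ∀ s', IsI d s' → (FX s).card ≤ (FX s').card) :
    3 * (FX s).card ≤ n := by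
  classical
  have hmem : ∀ u, u ∈ FX s ↔ s u = u := by
    intro u
    simp [FX]
  let A := (FX s).image (fun u => u + d)
  let B := (FX s).image (fun u => u - d)
  have hA : A.card = (FX s).card := card_image_of_injective _ (add_left_injective d)
  have hB : B.card = (FX s).card := card_image_of_injective _ (sub_left_injective)
  have h1 : Disjoint (FX s) A := by
    rw [disjoint_left]
    intro v hv hvA
    obtain ⟨u, hu, rfl⟩ := mem_image.1 hvA
    exact swap_ne hd hs hm u ((hmem u).1 hu) ((hmem _).1 hv)
  have h2 : Disjoint (FX s) B := by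
    rw [disjoint_left]
    intro v hv hvA
    obtain ⟨u, hu, rfl⟩ := mem_image.1 hvA
    have h3 := swap_ne hd hs hm (u - d) ((hmem _).1 hv)
    rw [sub_add_cancel] at h3
    exact h3 ((hmem u).1 hu)
  have h3 : Disjoint A B := by
    rw [disjoint_left]
    intro v hvA hvB
    obtain ⟨u, hu, rfl⟩ := mem_image.1 hvA
    obtain ⟨u', hu', he⟩ := mem_image.1 hvB
    have hu1 := (hmem _).1 hu
    have hu2 := (hmem _).1 hu'
    have hv := swap_ne hd hs hm u hu1
    have he' : u' = u + d + d := by
      rw [← he]
      ring
    obtain ⟨h4, h5 | h5 | h5⟩ := hs (u + d)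
    · exact hv h5
    · have h6 : s (u + d) = u' := by rw [h5, he']
      rw [h6, hu2] at h4
      rw [← h4] at hv
      exact hv hu2
    · have h6 : s (u + d) = u := by rw [h5]; ring
      rw [h6, hu1] at h4
      rw [← h4] at hv
      exact hv hu1
  have h4 : ((FX s ∪ A) ∪ B).card = 3 * (FX s).card := by
    rw [card_union_of_disjoint (disjoint_union_left.2 ⟨h2, h3⟩), card_union_of_disjoint h1, hA, hB]
    ring
  rw [← h4]
  exact (card_le_univ _).trans (ZMod.card n).le

/-- the colouring -/
theorem exists_col {n ω : ℕ} [NeZero n] (h2 : 2 * n ≤ 3 * ω) {d : ZMod n}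
    (hd : d ≠ 0) : ∃ f : ZMod n → Finset (ZMod n), (univ.image f).card ≤ ω ∧
      ∀ i j, f i = f j → j = i ∨ j = i + d ∨ j = i - d := by
  classical
  obtain ⟨s, hs, hm⟩ := exists_min d
  have h3 := three_fix hd hs hm
  refine ⟨fun i => {i, s i}, ?_, ?_⟩
  · have e1 : (univ : Finset (ZMod n)).image (fun i => ({i, s i} : Finset (ZMod n))) =
        ((FX s).image (fun i => ({i, s i} : Finset (ZMod n)))) ∪
        ((univ \ FX s).image (fun i => ({i, s i} : Finset (ZMod n)))) := by
      rw [← image_union]
      congr 1
      rw [union_sdiff_of_subset (subset_univ _)]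
    have e2 : 2 * ((univ \ FX s).image (fun i => ({i, s i} : Finset (ZMod n)))).card ≤
        (univ \ FX s).card := by
      apply mul_card_image_le_card
      intro C hC
      obtain ⟨i, hi, rfl⟩ := mem_image.1 hC
      have hi' : s i ≠ i := by
        intro h
        apply (mem_sdiff.1 hi).2
        simpa [FX] using h
      have h5 : ({i, s i} : Finset (ZMod n)).card = 2 := card_pair (Ne.symm hi')
      rw [← h5]
      apply card_le_card
      intro j hj
      rw [mem_insert, mem_singleton] at hj
      rw [mem_filter]
      rcases hj with rfl | rfl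
      · exact ⟨hi, rfl⟩
      · refine ⟨?_, ?_⟩
        · rw [mem_sdiff]
          refine ⟨mem_univ _, ?_⟩
          intro h
          apply hi'
          have : s (s i) = s i := by simpa [FX] using h
          rw [(hs i).1] at this
          exact this.symm
        · rw [(hs i).1]
          exact pair_comm _ _
    have e3 : ((FX s).image (fun i => ({i, s i} : Finset (ZMod n)))).card ≤ (FX s).card :=
      card_image_le
    have e4 : (univ \ FX s).card = n - (FX s).card := by
      rw [card_sdiff_of_subset (subset_univ _), card_univ, ZMod.card]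
    have e5 := card_union_le ((FX s).image (fun i => ({i, s i} : Finset (ZMod n))))
      ((univ \ FX s).image (fun i => ({i, s i} : Finset (ZMod n))))
    rw [e1]
    omega
  · intro i j hij
    have h5 : j ∈ ({i, s i} : Finset (ZMod n)) := by
      have h6 : j ∈ ({j, s j} : Finset (ZMod n)) := mem_insert_self _ _
      have h7 : ({i, s i} : Finset (ZMod n)) = {j, s j} := hij
      rw [h7]
      exact h6
    rw [mem_insert, mem_singleton] at h5
    rcases h5 with h5 | h5
    · exact Or.inl h5
    · rw [h5]
      rcases (hs i).2 with h6 | h6 | h6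
      · exact Or.inl h6
      · exact Or.inr (Or.inl h6)
      · exact Or.inr (Or.inr h6)

end Pool.Agent.Y454.EW
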