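import Pool.Agent.H98R2.Nb.GC
import Pool.Agent.H98R2.Ev.T15

set_option autoImplicit false

/-!
A graph property that holds for all invariant graphs except the complete graph is not
non-evasive (orbit form of the counting criterion).
-/

namespace Pool.Agent.Y454.EW

open Finset Pool.Agent.H98R2.Ev Pool.Agent.H98R2.Nb

theorem inv_pow {V : Type} {s : Equiv.Perm V} {G : SimpleGraph V} (h : Inv s G) (n : ℕ) :
    ∀ x y, G.Adj x y → G.Adj ((s ^ n) x) ((s ^ n) y) := by
  induction n with
  | zero =>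
    intro x y h1
    simpa using h1
  | succ n ih =>
    intro x y h1
    have h2 := h _ _ (ih x y h1)
    rw [pow_succ']
    simpa using h2

theorem inv_iff' {V : Type} [Finite V] {s : Equiv.Perm V} {G : SimpleGraph V} (h : Inv s G)
    (x y : V) : G.Adj (s x) (s y) ↔ G.Adj x y := by
  refine ⟨fun h1 => ?_, h x y⟩
  have ho : 0 < orderOf s := orderOf_pos s
  have h2 := inv_pow h (orderOf s - 1) _ _ h1
  have h3 : s ^ (orderOf s - 1) * s = 1 := by
    rw [← pow_succ, Nat.sub_add_cancel ho, pow_orderOf_eq_one]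
  have h4 : ∀ z, (s ^ (orderOf s - 1)) (s z) = z := by
    intro z
    have h5 := congrArg (fun e : Equiv.Perm V => e z) h3
    simpa using h5
  rwa [h4, h4] at h2

section
variable {V : Type} [Fintype V] [DecidableEq V] {ι : Type}

/-- invariance under all the permutations -/
def IA (a : ι → Equiv.Perm V) (c : Equiv.Perm V) (G : SimpleGraph V) : Prop :=
  (∀ i, Inv (a i) G) ∧ Inv c G

/-- the orbits of pairs -/
def rr (a : ι → Equiv.Perm V) (c : Equiv.Perm V) : Setoid (EV V) where
  r e e' := ∀ G : SimpleGraph V, IA a c G → (e.1 ∈ G.edgeSet ↔ e'.1 ∈ G.edgeSet)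
  iseqv := ⟨fun _ _ _ => Iff.rfl, fun h G hG => (h G hG).symm,
    fun h h' G hG => (h G hG).trans (h' G hG)⟩

open Classical in
/-- the graph of a set of orbits -/
noncomputable def gg (a : ι → Equiv.Perm V) (c : Equiv.Perm V)
    (A : Finset (Quotient (rr a c))) : SimpleGraph V :=
  toG (univ.filter (fun e : EV V => (Quotient.mk (rr a c) e) ∈ A))

theorem gg_adj (a : ι → Equiv.Perm V) (c : Equiv.Perm V) (A : Finset (Quotient (rr a c)))
    (x y : V) : (gg a c A).Adj x y ↔ ∃ h : ¬ (s(x, y) : Sym2 V).IsDiag,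
      (Quotient.mk (rr a c) ⟨s(x, y), h⟩) ∈ A := by
  unfold gg
  rw [toG_adj15]
  unfold RR
  simp

theorem gg_le (a : ι → Equiv.Perm V) (c : Equiv.Perm V) (A B : Finset (Quotient (rr a c))) :
    gg a c A ≤ gg a c B ↔ A ⊆ B := by
  constructor
  · intro h w hw
    induction w using Quotient.inductionOn with
    | _ e =>
      obtain ⟨e, he⟩ := e
      induction e using Sym2.ind with
      | _ x y =>
        have h1 : (gg a c A).Adj x y := (gg_adj a c A x y).2 ⟨he, hw⟩
        obtain ⟨h2, h3⟩ := (gg_adj a c B x y).1 (h h1)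
        exact h3
  · intro h x y hxy
    obtain ⟨h1, h2⟩ := (gg_adj a c A x y).1 hxy
    exact (gg_adj a c B x y).2 ⟨h1, h h2⟩

theorem gg_inv (a : ι → Equiv.Perm V) (c : Equiv.Perm V) (A : Finset (Quotient (rr a c)))
    (s : Equiv.Perm V) (hs : ∀ G, IA a c G → Inv s G) : Inv s (gg a c A) := by
  intro x y hxy
  obtain ⟨h1, h2⟩ := (gg_adj a c A x y).1 hxy
  have hxy' : x ≠ y := hxy.ne
  have h3 : ¬ (s(s x, s y) : Sym2 V).IsDiag := by
    rw [Sym2.mk_isDiag_iff]
    intro h
    exact hxy' (s.injective h)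
  refine (gg_adj a c A _ _).2 ⟨h3, ?_⟩
  have h4 : (Quotient.mk (rr a c) ⟨s(s x, s y), h3⟩) = (Quotient.mk (rr a c) ⟨s(x, y), h1⟩) := by
    apply Quotient.sound
    intro G hG
    exact inv_iff' (hs G hG) x y
  rw [h4]
  exact h2

open Classical in
theorem gg_surj (a : ι → Equiv.Perm V) (c : Equiv.Perm V) (G : SimpleGraph V) (hG : IA a c G) :
    ∃ A, gg a c A = G := by
  have : Fintype (Quotient (rr a c)) := Fintype.ofFinite _
  refine ⟨univ.filter (fun w => ∃ e : EV V, Quotient.mk (rr a c) e = w ∧ e.1 ∈ G.edgeSet), ?_⟩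
  ext x y
  rw [gg_adj]
  constructor
  · rintro ⟨h1, h2⟩
    obtain ⟨-, e, he, h3⟩ := mem_filter.1 h2
    have h4 := Quotient.exact he
    exact (h4 G hG).1 h3
  · intro h
    have h1 : ¬ (s(x, y) : Sym2 V).IsDiag := by
      rw [Sym2.mk_isDiag_iff]
      exact h.ne
    exact ⟨h1, mem_filter.2 ⟨mem_univ _, ⟨s(x, y), h1⟩, rfl, h⟩⟩

/-- the criterion -/
theorem orb (P : SimpleGraph V → Prop) (hdown : ∀ G G' : SimpleGraph V, G ≤ G' → P G' → P G)
    (hiso : ∀ (s : Equiv.Perm V) (G : SimpleGraph V), P G → P (G.map s.toEmbedding))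
    (hne : NE (univ : Finset (EV V)) (fun S => P (toG S))) [Fintype ι]
    (a : ι → Equiv.Perm V) (c : Equiv.Perm V)
    (hcomm : ∀ i j, a i * a j = a j * a i) (hap : ∀ i, a i ^ 2 = 1)
    (hac : ∀ i, ∃ j, c⁻¹ * a i * c = a j)
    (htop : ¬ P ⊤) (hall : ∀ G, (∀ i, Inv (a i) G) → Inv c G → G ≠ ⊤ → P G)
    (hV : (⊥ : SimpleGraph V) ≠ ⊤) : False := by
  classical
  have : Fintype (Quotient (rr a c)) := Fintype.ofFinite _
  have hbot : P ⊥ := hall ⊥ (fun i x y h => h.elim) (fun x y h => h.elim) hV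
  have : Fact (Nat.Prime 2) := ⟨Nat.prime_two⟩
  have key := GC.graph_criterion P hdown hiso hbot hne 2 2 0 a c 1 hcomm hap (one_pow _)
    (fun i => by rw [mul_one, one_mul])
    (fun G hG i => by
      obtain ⟨j, hj⟩ := hac i
      rw [hj]
      exact hG j)
    (fun G _ hG => by
      rw [inv_one, one_mul, mul_one]
      exact hG)
    (gg a c) (gg_le a c) (fun A i => gg_inv a c A (a i) (fun G hG => hG.1 i))
    (fun A => gg_inv a c A c (fun G hG => hG.2)) (fun A x y h => h)
    (fun G _ h1 h2 _ => gg_surj a c G ⟨h1, h2⟩)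
  have hia : ∀ A, IA a c (gg a c A) := fun A =>
    ⟨fun i => gg_inv a c A (a i) (fun G hG => hG.1 i), gg_inv a c A c (fun G hG => hG.2)⟩
  have hgt : gg a c univ = ⊤ := by
    obtain ⟨A, hA⟩ := gg_surj a c ⊤ ⟨fun i x y h => fun h1 => h ((a i).injective h1),
      fun x y h => fun h1 => h (c.injective h1)⟩
    apply top_le_iff.1
    rw [← hA]
    exact (gg_le a c _ _).2 (subset_univ _)
  have hP : ∀ A, P (gg a c A) ↔ A ≠ univ := by
    intro A
    constructor
    · rintro h rfl
      rw [hgt] at h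
      exact htop h
    · intro h
      apply hall _ (hia A).1 (hia A).2
      intro h1
      apply h
      rw [← hgt] at h1
      exact univ_subset_iff.1 ((gg_le a c _ _).1 h1.ge)
  have hne' : (univ : Finset (Quotient (rr a c))).Nonempty := by
    rw [nonempty_iff_ne_empty]
    intro h
    have h1 : gg a c univ = ⊥ := by
      obtain ⟨A, hA⟩ := gg_surj a c ⊥ ⟨fun i x y h => h.elim, fun x y h => h.elim⟩
      apply le_bot_iff.1
      rw [← hA]
      rw [gg_le, h]
      exact empty_subset _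
    exact hV (h1.symm.trans hgt)
  have hsum : ∑ A : Finset (Quotient (rr a c)), (-1 : ℤ) ^ A.card = 0 := by
    have := Finset.sum_powerset_neg_one_pow_card_of_nonempty hne'
    rwa [powerset_univ] at this
  have hs2 : ∑ A : Finset (Quotient (rr a c)), (if P (gg a c A) then (-1 : ℤ) ^ A.card else 0) =
      - (-1 : ℤ) ^ (univ : Finset (Quotient (rr a c))).card := by
    have h1 : ∑ A : Finset (Quotient (rr a c)), (if P (gg a c A) then (-1 : ℤ) ^ A.card else 0) +
        ∑ A : Finset (Quotient (rr a c)), (if A = univ then (-1 : ℤ) ^ A.card else 0) = 0 := by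
      rw [← sum_add_distrib]
      refine (sum_congr rfl fun A _ => ?_).trans hsum
      by_cases h : A = univ
      · rw [if_pos h, if_neg (fun h1 => (hP A).1 h1 h), zero_add]
      · rw [if_neg h, if_pos ((hP A).2 h), add_zero]
    rw [sum_ite_eq' univ univ, if_pos (mem_univ _)] at h1
    linarith
  rw [hs2] at key
  rcases neg_one_pow_eq_or ℤ (univ : Finset (Quotient (rr a c))).card with h | h <;>
    rw [h] at key <;> norm_num at key

end

end Pool.Agent.Y454.EW
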