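import Pool.Agent.Y577.EV.Stm
import Pool.Agent.Y454.EW.Orb
import Pool.Agent.Y454.EW.Inv

set_option autoImplicit false

/-!
Homomorphism-closed graph properties whose members are not `ω`-colourable, `ω` large: EV6 and EV7
of project EV (MP_257582_lc).
-/

namespace Pool.Agent.Y454.EW

open Finset Pool.Agent.H98R2.Ev Pool.Agent.Y577.EV
open Pool.Agent.H98R2.Nb (Inv)
open Pool.Agent.TH410.KV

theorem hh_mono {𝓕 : Fam} {V W : Type} {G : SimpleGraph V} {G' : SimpleGraph W} (f : G →g G')
    (h : HH 𝓕 G) : HH 𝓕 G' := by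
  obtain ⟨F, hF, ⟨g⟩⟩ := h
  exact ⟨F, hF, ⟨f.comp g⟩⟩

theorem core {V : Type} [Fintype V] [DecidableEq V] {n : ℕ} (ω : ℕ) {𝓕 : Fam} (hn : 2 ≤ n)
    (hc : Fintype.card V = n) (h1 : ∀ F ∈ 𝓕, ¬ F.2.Colorable ω)
    (hT : HH 𝓕 (⊤ : SimpleGraph (Fin n)))
    (hNE : NE (univ : Finset (EV (Fin n))) (fun S => ¬ HH 𝓕 (toG S)))
    {ι : Type} [Fintype ι] (a : ι → Equiv.Perm V) (c : Equiv.Perm V)
    (hcomm : ∀ i j, a i * a j = a j * a i) (hap : ∀ i, a i ^ 2 = 1)
    (hac : ∀ i, ∃ j, c⁻¹ * a i * c = a j)
    (hall : ∀ G : SimpleGraph V, (∀ i, Inv (a i) G) → Inv c G → G ≠ ⊤ → G.Colorable ω) :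
    False := by
  classical
  have hcard : Fintype.card (Fin n) = Fintype.card V := by rw [Fintype.card_fin, hc]
  let E : Fin n ≃ V := Fintype.equivOfCardEq hcard
  have hNE2 := ne_map15 (ev15 E) _ _ hNE
  rw [Finset.map_univ_equiv] at hNE2
  have hNE3 : NE (univ : Finset (EV V)) (fun S => ¬ HH 𝓕 (toG S)) := by
    have h1 : (fun S : Finset (EV V) => ¬ HH 𝓕 (toG S)) =
        (fun S => ¬ HH 𝓕 (toG (S.map (ev15 E).symm.toEmbedding))) := by
      funext S
      have h1 : toG (S.map (ev15 E).symm.toEmbedding) = (toG S).map E.symm.toEmbedding :=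
        toG_map15 E.symm S
      rw [h1]
      apply propext
      rw [not_iff_not]
      exact ⟨fun h => hh_mono (SimpleGraph.Iso.map E.symm (toG S)).toHom h,
        fun h => hh_mono (SimpleGraph.Iso.map E.symm (toG S)).symm.toHom h⟩
    rw [h1]
    exact hNE2
  refine orb (fun G => ¬ HH 𝓕 G) ?_ ?_ hNE3 a c hcomm hap hac ?_ ?_ ?_
  · intro G G' hG h h'
    exact h (hh_mono (SimpleGraph.Hom.ofLE hG) h')
  · intro s G h h'
    exact h (hh_mono (SimpleGraph.Iso.map s G).symm.toHom h')
  · intro h
    apply h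
    refine hh_mono ⟨E, ?_⟩ hT
    intro x y hxy
    rw [SimpleGraph.top_adj] at hxy ⊢
    exact fun h => hxy (E.injective h)
  · intro G hG1 hG2 hG3 h
    obtain ⟨F, hF, ⟨f⟩⟩ := h
    apply h1 F hF
    obtain ⟨C⟩ := hall G hG1 hG2 hG3
    exact ⟨C.comp f⟩
  · intro h
    have h2 : Nontrivial V := by
      rw [← Fintype.one_lt_card_iff_nontrivial, hc]
      omega
    obtain ⟨x, y, hxy⟩ := h2
    have h3 : (⊤ : SimpleGraph V).Adj x y := hxy
    rw [← h] at h3
    exact h3

theorem not_top {V : Type} {G : SimpleGraph V} (h : G ≠ ⊤) : ∃ x y, x ≠ y ∧ ¬ G.Adj x y := by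
  by_contra h1
  push Not at h1
  apply h
  ext x y
  rw [SimpleGraph.top_adj]
  exact ⟨fun h => h.ne, h1 x y⟩

/-- EV7 -/
theorem odd_case : S_odd := by
  classical
  intro n ω 𝓕 hn hodd h2 h1 hT hNE
  have : NeZero n := ⟨by omega⟩
  refine core (V := ZMod n) ω hn (ZMod.card n) h1 hT hNE (ι := Empty)
    (fun e => e.elim) (Equiv.addRight (1 : ZMod n)) (fun e => e.elim) (fun e => e.elim)
    (fun e => e.elim) ?_
  intro G _ hG hGt
  obtain ⟨x, y, hxy, hna⟩ := not_top hGt
  have hd : y - x ≠ 0 := fun h => hxy (sub_eq_zero.1 h).symm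
  have hsh : ∀ (k : ℕ) (u v : ZMod n), G.Adj (u + k) (v + k) ↔ G.Adj u v := by
    intro k
    induction k with
    | zero => intro u v; simp
    | succ k ih =>
      intro u v
      have h3 := inv_iff' hG (u + k) (v + k)
      rw [ih] at h3
      rw [← h3]
      have e : ∀ w : ZMod n, (Equiv.addRight (1 : ZMod n)) (w + k) = w + ((k + 1 : ℕ) : ZMod n) := by
        intro w
        simp [add_assoc]
      rw [e, e]
  have hsh' : ∀ (k u v : ZMod n), G.Adj (u + k) (v + k) ↔ G.Adj u v := by
    intro k u v
    have := hsh k.val u v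
    rwa [ZMod.natCast_zmod_val] at this
  have hnd : ∀ u, ¬ G.Adj u (u + (y - x)) := by
    intro u h
    apply hna
    have := hsh' (u - x) x y
    rw [← this]
    have e1 : x + (u - x) = u := by ring
    have e2 : y + (u - x) = u + (y - x) := by ring
    rw [e1, e2]
    exact h
  obtain ⟨f, hf1, hf2⟩ := exists_col h2 hd
  refine SimpleGraph.Colorable.mono hf1 ?_
  have hC : G.Colorable (Fintype.card ↥(univ.image f)) := by
    refine (SimpleGraph.Coloring.mk (fun i => (⟨f i, mem_image_of_mem f (mem_univ i)⟩ :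
      ↥(univ.image f))) ?_).colorable
    intro i j hij h
    have h3 : f i = f j := congrArg Subtype.val h
    rcases hf2 i j h3 with h4 | h4 | h4
    · exact hij.ne h4.symm
    · rw [h4] at hij
      exact hnd i hij
    · have h5 : i = j + (y - x) := by rw [h4]; ring
      rw [h5] at hij
      exact hnd j hij.symm
  rwa [Fintype.card_coe] at hC

/-- the flip of one pair -/
def fl {m : ℕ} (i : ZMod m) : Equiv.Perm (ZMod m × ZMod 2) where
  toFun x := (x.1, if x.1 = i then x.2 + 1 else x.2)
  invFun x := (x.1, if x.1 = i then x.2 + 1 else x.2)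
  left_inv x := by
    have h2 : (1 : ZMod 2) + 1 = 0 := by decide
    refine Prod.ext rfl ?_
    by_cases h : x.1 = i
    · simp only [h, if_true]
      rw [add_assoc, h2, add_zero]
    · simp only [h, if_false]
  right_inv x := by
    have h2 : (1 : ZMod 2) + 1 = 0 := by decide
    refine Prod.ext rfl ?_
    by_cases h : x.1 = i
    · simp only [h, if_true]
      rw [add_assoc, h2, add_zero]
    · simp only [h, if_false]

/-- the rotation -/
def ro {m : ℕ} : Equiv.Perm (ZMod m × ZMod 2) :=
  Equiv.prodCongr (Equiv.addRight (1 : ZMod m)) (Equiv.refl _)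

theorem z2 (a b c : ZMod 2) (h : a ≠ b) : c = a ∨ c = b := by
  revert a b c
  decide

theorem z3 : ∀ a b : ZMod 2, a ≠ 0 → b ≠ 0 → a = b := by
  decide

/-- EV6 -/
theorem even_case : S_even := by
  classical
  intro n 𝓕 hn heven h1 hT hNE
  obtain ⟨m, hm⟩ := heven
  have hm1 : n / 2 = m := by omega
  have : NeZero m := ⟨by omega⟩
  refine core (V := ZMod m × ZMod 2) (n / 2) hn ?_ h1 hT hNE (ι := ZMod m)
    fl ro ?_ ?_ ?_ ?_
  · rw [Fintype.card_prod, ZMod.card, ZMod.card]
    omega
  · intro i j
    ext1 x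
    simp only [Equiv.Perm.mul_apply]
    show (x.1, if x.1 = i then (if x.1 = j then x.2 + 1 else x.2) + 1 else
      (if x.1 = j then x.2 + 1 else x.2)) = (x.1, if x.1 = j then (if x.1 = i then x.2 + 1 else x.2) + 1 else
      (if x.1 = i then x.2 + 1 else x.2))
    split_ifs <;> rfl
  · intro i
    rw [sq]
    ext1 x
    rw [Equiv.Perm.mul_apply]
    exact (fl i).left_inv x
  · intro i
    refine ⟨i - 1, ?_⟩
    rw [mul_assoc, inv_mul_eq_iff_eq_mul]
    ext1 x
    simp only [Equiv.Perm.mul_apply]
    show (x.1 + 1, if x.1 + 1 = i then x.2 + 1 else x.2) =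
      (x.1 + 1, if x.1 = i - 1 then x.2 + 1 else x.2)
    have h3 : (x.1 + 1 = i) ↔ (x.1 = i - 1) := eq_sub_iff_add_eq.symm
    by_cases h : x.1 = i - 1
    · rw [if_pos h, if_pos (h3.2 h)]
    · rw [if_neg h, if_neg (fun h4 => h (h3.1 h4))]
  · intro G hG1 hG2 hGt
    obtain ⟨⟨i, u⟩, ⟨j, v⟩, hxy, hna⟩ := not_top hGt
    have hsh : ∀ (k : ℕ) (p q : ZMod m) (r s : ZMod 2),
        G.Adj (p + k, r) (q + k, s) ↔ G.Adj (p, r) (q, s) := by
      intro k
      induction k with
      | zero => intro p q r s; simp
      | succ k ih =>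
        intro p q r s
        have h3 := inv_iff' hG2 (p + k, r) (q + k, s)
        rw [ih] at h3
        rw [← h3]
        have e : ∀ (w : ZMod m) (r : ZMod 2), (ro : Equiv.Perm (ZMod m × ZMod 2)) (w + k, r) =
            (w + ((k + 1 : ℕ) : ZMod m), r) := by
          intro w r
          show ((w + k) + 1, r) = _
          rw [Nat.cast_add, Nat.cast_one, add_assoc]
        rw [e, e]
    have hsh' : ∀ (k p q : ZMod m) (r s : ZMod 2),
        G.Adj (p + k, r) (q + k, s) ↔ G.Adj (p, r) (q, s) := by
      intro k p q r s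
      have := hsh k.val p q r s
      rwa [ZMod.natCast_zmod_val] at this
    by_cases hij : i = j
    · subst hij
      have huv : u ≠ v := fun h => hxy (by rw [h])
      have hno : ∀ (k : ZMod m) (r s : ZMod 2), ¬ G.Adj (k, r) (k, s) := by
        intro k r s h
        have h3 : G.Adj (i, r) (i, s) := by
          have := hsh' (k - i) i i r s
          rw [add_sub_cancel] at this
          exact this.1 h
        rcases z2 u v r huv with e1 | e1 <;> rcases z2 u v s huv with e2 | e2 <;>
          rw [e1, e2] at h3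
        · exact h3.ne rfl
        · exact hna h3
        · exact hna h3.symm
        · exact h3.ne rfl
      have hC : G.Colorable (Fintype.card (ZMod m)) := by
        refine (SimpleGraph.Coloring.mk (fun x => x.1) ?_).colorable
        rintro ⟨k, r⟩ ⟨k', s⟩ h h'
        have h' : k = k' := h'
        subst h'
        exact hno k r s h
      rw [ZMod.card] at hC
      rwa [hm1]
    · have hf1 : ∀ r s : ZMod 2, G.Adj (i, r + 1) (j, s) ↔ G.Adj (i, r) (j, s) := by
        intro r s
        have := inv_iff' (hG1 i) (i, r) (j, s)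
        have e1 : fl i (i, r) = (i, r + 1) := by
          show (i, if i = i then r + 1 else r) = _
          rw [if_pos rfl]
        have e2 : fl i (j, s) = (j, s) := by
          show (j, if j = i then s + 1 else s) = _
          rw [if_neg (Ne.symm hij)]
        rwa [e1, e2] at this
      have hf2 : ∀ r s : ZMod 2, G.Adj (i, r) (j, s + 1) ↔ G.Adj (i, r) (j, s) := by
        intro r s
        have := inv_iff' (hG1 j) (i, r) (j, s)
        have e1 : fl j (i, r) = (i, r) := by
          show (i, if i = j then r + 1 else r) = _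
          rw [if_neg hij]
        have e2 : fl j (j, s) = (j, s + 1) := by
          show (j, if j = j then s + 1 else s) = _
          rw [if_pos rfl]
        rwa [e1, e2] at this
      have hz : ∀ a b : ZMod 2, a = b ∨ a = b + 1 := by decide
      have hno : ∀ (k : ZMod m) (r s : ZMod 2), ¬ G.Adj (k, r) (k + (j - i), s) := by
        intro k r s h
        have h3 : G.Adj (i, r) (j, s) := by
          have := hsh' (k - i) i j r s
          have e1 : i + (k - i) = k := by ring
          have e2 : j + (k - i) = k + (j - i) := by ring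
          rw [e1, e2] at this
          exact this.1 h
        apply hna
        rcases hz u r with rfl | rfl <;> rcases hz v s with rfl | rfl
        · exact h3
        · exact (hf2 _ _).2 h3
        · exact (hf1 _ _).2 h3
        · exact (hf2 _ _).2 ((hf1 _ _).2 h3)
      have hC : G.Colorable (Fintype.card (ZMod m)) := by
        refine (SimpleGraph.Coloring.mk (fun x => if x.2 = 0 then x.1 else x.1 - (j - i))
          ?_).colorable
        rintro ⟨k, r⟩ ⟨k', s⟩ h h'
        have h' : (if r = 0 then k else k - (j - i)) = (if s = 0 then k' else k' - (j - i)) := h'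
        by_cases hr : r = 0 <;> by_cases hs : s = 0
        · rw [if_pos hr, if_pos hs] at h'
          exact h.ne (by rw [h', hr, hs])
        · rw [if_pos hr, if_neg hs] at h'
          have e : k' = k + (j - i) := by rw [h']; ring
          rw [e] at h
          exact hno _ _ _ h
        · rw [if_neg hr, if_pos hs] at h'
          have e : k = k' + (j - i) := by rw [← h']; ring
          rw [e] at h
          exact hno _ _ _ h.symm
        · rw [if_neg hr, if_neg hs] at h'
          have e : k = k' := sub_left_injective h'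
          have e1 : r = s := z3 r s hr hs
          exact h.ne (by rw [e, e1])
      rw [ZMod.card] at hC
      rwa [hm1]

end Pool.Agent.Y454.EW
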